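import Mathlib
import Pool.Agent.W388.TW.D0
import Pool.Agent.W440.TW.Twist
import Pool.Agent.W108.TW.Mellin

/-!
# Root numbers of quadratic twists (no hypothesis on the coefficients)
-/

set_option autoImplicit false

open Complex Filter Topology Set UpperHalfPlane MatrixGroups CongruenceSubgroup ZMod

namespace Pool.Agent.N818.RN

open Pool.Agent.W108.TW Pool.Agent.W440.TW

/-- Mellin transform, linear version, with an explicit sign. -/
theorem mellin_lin (k : ℤ) (hk : 1 ≤ k) (R : ℝ) (hR : 0 < R) (b : ℕ → ℂ) (m C : ℝ)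
    (hb0 : b 0 = 0) (hm : 0 ≤ m) (hb : ∀ n : ℕ, 1 ≤ n → ‖b n‖ ≤ C * (n : ℝ) ^ m) (w : ℂ)
    (hw : w ≠ 0)
    (hfe : ∀ t : ℝ, 0 < t → ∑' n : ℕ, b n * (Real.exp (-(2 * Real.pi * n / R) / t) : ℂ) =
      w * (t : ℂ) ^ k * ∑' n : ℕ, b n * (Real.exp (-(2 * Real.pi * n / R) * t) : ℂ)) :
    ∃ F : ℂ → ℂ, Differentiable ℂ F ∧
      (∀ s : ℂ, ((R / (2 * Real.pi) : ℝ) : ℂ) ^ s * Complex.Gamma (s + ((k : ℂ) - 1) / 2) * F s =
        w * (((R / (2 * Real.pi) : ℝ) : ℂ) ^ (1 - s) *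
          Complex.Gamma ((1 - s) + ((k : ℂ) - 1) / 2) * F (1 - s)) ∨
        Complex.Gamma (s + ((k : ℂ) - 1) / 2) = 0 ∨ Complex.Gamma ((1 - s) + ((k : ℂ) - 1) / 2) = 0) ∧
      (w = -1 → F (1 / 2) = 0) ∧
      ∀ s : ℂ, m + 2 < s.re →
        HasSum (fun n : ℕ => b n * (n : ℂ) ^ (-(s + ((k : ℂ) - 1) / 2))) (F s) := by
  set c : ℝ := 2 * Real.pi / R with hc'
  have hc : 0 < c := by have := Real.pi_pos; positivity
  have hkr : (1 : ℝ) ≤ k := by exact_mod_cast hk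
  let P : WeakFEPair ℂ :=
    { f := Th b c
      g := Th b c
      k := (k : ℝ)
      ε := w
      f₀ := 0
      g₀ := 0
      hf_int := (continuousOn_Th hb0 hb hc).locallyIntegrableOn measurableSet_Ioi
      hg_int := (continuousOn_Th hb0 hb hc).locallyIntegrableOn measurableSet_Ioi
      hk := by linarith
      hε := hw
      h_feq := by
        intro x (hx : 0 < x)
        have h := hfe x hx
        rw [smul_eq_mul, Real.rpow_intCast, Complex.ofReal_zpow]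
        rw [Th, Th]
        have e1 : ∀ n : ℕ, -(c * n) * (1 / x) = -(2 * Real.pi * n / R) / x := by
          intro n; rw [hc']; ring
        have e2 : ∀ n : ℕ, -(c * n) * x = -(2 * Real.pi * n / R) * x := by
          intro n; rw [hc']; ring
        simp only [e1, e2]
        exact h
      hf_top := Th_isBigO hb0 hb hc
      hg_top := Th_isBigO hb0 hb hc }
  have hP : IsStrongFEPair P := ⟨rfl, rfl⟩
  have hΛf : P.Λ = mellin (Th b c) := hP.Λ_eq
  have hΛg : P.symm.Λ = mellin (Th b c) := hP.symm_Λ_eq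
  have hcC : (c : ℂ) ≠ 0 := by exact_mod_cast hc.ne'
  set κ : ℂ := ((k : ℂ) - 1) / 2 with hκ
  have hκr : κ = (((k : ℝ) - 1) / 2 : ℝ) := by rw [hκ]; push_cast; ring
  let F : ℂ → ℂ := fun s => P.Λ (s + κ) * (c : ℂ) ^ (s + κ) * (Complex.Gamma (s + κ))⁻¹
  have hRc : ((R / (2 * Real.pi) : ℝ) : ℂ) = (c : ℂ)⁻¹ := by
    rw [hc', ← Complex.ofReal_inv, inv_div]
  have harg : (c : ℂ).arg ≠ Real.pi := by
    rw [Complex.arg_ofReal_of_nonneg hc.le]; exact Real.pi_pos.ne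
  have hGF : ∀ s : ℂ, Complex.Gamma (s + κ) ≠ 0 →
      ((R / (2 * Real.pi) : ℝ) : ℂ) ^ s * Complex.Gamma (s + κ) * F s =
        (c : ℂ) ^ κ * P.Λ (s + κ) := by
    intro s hG
    rw [hRc, Complex.inv_cpow _ _ harg]
    have hcs : (c : ℂ) ^ s ≠ 0 := by
      rw [Complex.cpow_def_of_ne_zero hcC]; exact Complex.exp_ne_zero _
    simp only [F]
    rw [Complex.cpow_add _ _ hcC]
    field_simp
  have hfeq : ∀ s : ℂ, P.Λ ((1 - s) + κ) = w * P.Λ (s + κ) := by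
    intro s
    have e1 : (1 - s) + κ = (P.k : ℂ) - (s + κ) := by
      have : (P.k : ℂ) = (k : ℂ) := by simp [P]
      rw [this, hκ]; ring
    rw [e1, P.functional_equation, hΛg, hΛf]
    rfl
  refine ⟨F, ?_, ?_, ?_, ?_⟩
  · have h1 : Differentiable ℂ (fun s : ℂ => P.Λ (s + κ)) :=
      hP.differentiable_Λ.comp (differentiable_id.add_const κ)
    have h2 : Differentiable ℂ (fun s : ℂ => (c : ℂ) ^ (s + κ)) := by
      intro s
      exact (DifferentiableAt.const_cpow (by fun_prop) (Or.inl hcC))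
    have h3 : Differentiable ℂ (fun s : ℂ => (Complex.Gamma (s + κ))⁻¹) :=
      Complex.differentiable_one_div_Gamma.comp (differentiable_id.add_const κ)
    exact (h1.mul h2).mul h3
  · intro s
    by_cases hG1 : Complex.Gamma (s + κ) = 0
    · exact Or.inr (Or.inl hG1)
    by_cases hG2 : Complex.Gamma ((1 - s) + κ) = 0
    · exact Or.inr (Or.inr hG2)
    left
    rw [hGF s hG1, hGF (1 - s) hG2]
    have h2 := hfeq (1 - s)
    rw [sub_sub_cancel] at h2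
    rw [h2]
    ring
  · intro hw1
    have h1 := hfeq (1 / 2)
    have e2 : (1 - 1 / 2 : ℂ) = 1 / 2 := by norm_num
    rw [e2, hw1] at h1
    have h3 : P.Λ (1 / 2 + κ) = 0 := by
      have : (2 : ℂ) * P.Λ (1 / 2 + κ) = 0 := by linear_combination h1
      exact (mul_eq_zero.1 this).resolve_left two_ne_zero
    show P.Λ (1 / 2 + κ) * (c : ℂ) ^ (1 / 2 + κ) * (Complex.Gamma (1 / 2 + κ))⁻¹ = 0
    rw [h3]
    ring
  · intro s hs
    set S : ℂ := s + κ with hS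
    have hSre : S.re = s.re + ((k : ℝ) - 1) / 2 := by rw [hS, hκr]; simp
    have hSm : m + 2 < S.re := by rw [hSre]; linarith
    have hSpos : 0 < S.re := by linarith
    have hG : Complex.Gamma S ≠ 0 := Complex.Gamma_ne_zero_of_re_pos hSpos
    have h1 := hasSum_mellin (a := b) (p := fun n : ℕ => c * n) (F := Th b c) (s := S)
      (by
        intro n
        rcases Nat.eq_zero_or_pos n with rfl | hn
        · exact Or.inl hb0
        · right
          have : (0 : ℝ) < n := by exact_mod_cast hn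
          positivity) hSpos
      (by
        intro t (ht : 0 < t)
        exact (summable_term hb0 hb hc ht).hasSum)
      (by
        have h2 : Summable (fun n : ℕ => |C| / c ^ S.re * (n : ℝ) ^ (m - S.re)) :=
          (Real.summable_nat_rpow.mpr (by linarith)).mul_left _
        refine Summable.of_nonneg_of_le (fun n => by positivity) (fun n => ?_) h2
        rcases Nat.eq_zero_or_pos n with rfl | hn
        · rw [hb0, norm_zero, zero_div]; positivity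
        · have hn' : (0 : ℝ) < n := by exact_mod_cast hn
          have h3 : ‖b n‖ ≤ |C| * (n : ℝ) ^ m :=
            (hb n hn).trans (mul_le_mul_of_nonneg_right (le_abs_self C) (by positivity))
          rw [Real.mul_rpow hc.le hn'.le, Real.rpow_sub hn', div_mul_div_comm]
          exact div_le_div_of_nonneg_right h3 (by positivity))
    have h4 := (h1.mul_right ((c : ℂ) ^ S)).mul_right ((Complex.Gamma S)⁻¹)
    have h5 : mellin (Th b c) S * (c : ℂ) ^ S * (Complex.Gamma S)⁻¹ = F s := by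
      simp only [F]
      rw [← hS, hΛf]
    rw [h5] at h4
    refine HasSum.congr_fun' h4 (fun n => ?_)
    have hcs : (c : ℂ) ^ S ≠ 0 := by
      rw [Complex.cpow_def_of_ne_zero hcC]; exact Complex.exp_ne_zero _
    rcases Nat.eq_zero_or_pos n with rfl | hn
    · rw [hb0]; simp
    · have hn' : (n : ℂ) ≠ 0 := by exact_mod_cast hn.ne'
      have hnS : (n : ℂ) ^ S ≠ 0 := by
        rw [Complex.cpow_def_of_ne_zero hn']; exact Complex.exp_ne_zero _
      rw [Complex.ofReal_mul, Complex.mul_cpow_ofReal_nonneg hc.le (Nat.cast_nonneg n),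
        Complex.cpow_neg]
      simp only [Complex.ofReal_natCast]
      field_simp

/-- the Fricke relation `f(-1/(Nτ)) = ε (√N τ / i)^k f(τ)` -/
def Fricke (N : ℕ) (k : ℤ) (f : CuspForm (Gamma0 N : Subgroup (GL (Fin 2) ℝ)) k) (ε : ℂ) : Prop :=
  ∀ τ τ' : ℍ, (τ' : ℂ) * ((N : ℂ) * (τ : ℂ)) = -1 →
    f τ' = ε * (((Real.sqrt N : ℝ) : ℂ) * (τ : ℂ) / Complex.I) ^ k * f τ

/-- modularity and Fricke -/
theorem f_flip {N : ℕ} [NeZero N] {k : ℤ}
    (f : CuspForm (Gamma0 N : Subgroup (GL (Fin 2) ℝ)) k) (ε : ℂ) (hf : Fricke N k f ε)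
    {q : ℕ} [NeZero q] (u v d : ℤ) (hd : q * d - N * u * v = 1) (t : ℝ) (ht : 0 < t)
    (h1 : 0 < (1 / (Real.sqrt N * t)) / q) (h2 : 0 < (t / Real.sqrt N) / q) :
    f (pt ((u : ℝ) / q) ((1 / (Real.sqrt N * t)) / q) h1) =
      (ε : ℂ) * (t : ℂ) ^ k * f (pt ((v : ℝ) / q) ((t / Real.sqrt N) / q) h2) := by
  have hq : (q : ℂ) ≠ 0 := Nat.cast_ne_zero.2 (NeZero.ne q)
  have hN : (0 : ℝ) < N := Nat.cast_pos.2 (Nat.pos_of_ne_zero (NeZero.ne N))
  have hsN : 0 < Real.sqrt N := Real.sqrt_pos.2 hN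
  let γ : SL(2, ℤ) := ⟨!![(q : ℤ), -u; -(N : ℤ) * v, d], by
    rw [Matrix.det_fin_two_of]; linarith⟩
  have hγ : γ ∈ Gamma0 N := by
    rw [Gamma0_mem]
    simp [γ]
  set z := pt ((u : ℝ) / q) ((1 / (Real.sqrt N * t)) / q) h1 with hz
  set z' := pt ((v : ℝ) / q) ((t / Real.sqrt N) / q) h2 with hz'
  have e1 := SlashInvariantForm.slash_action_eqn_SL'' f hγ z
  have htc : (t : ℂ) ≠ 0 := Complex.ofReal_ne_zero.2 ht.ne'
  have hsc : ((Real.sqrt N : ℝ) : ℂ) ≠ 0 := Complex.ofReal_ne_zero.2 hsN.ne'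
  have hss : ((Real.sqrt N : ℝ) : ℂ) * ((Real.sqrt N : ℝ) : ℂ) = (N : ℂ) := by
    rw [← Complex.ofReal_mul, Real.mul_self_sqrt hN.le]; simp
  have hdc : (q : ℂ) * (d : ℂ) - (N : ℂ) * (u : ℂ) * (v : ℂ) = 1 := by exact_mod_cast hd
  have hzc : (z : ℂ) = ((u : ℂ) + (1 / (((Real.sqrt N : ℝ) : ℂ) * (t : ℂ))) * Complex.I) / q := by
    rw [hz, pt_coe]
    push_cast
    ring
  have hzc' : (z' : ℂ) = ((v : ℂ) + ((t : ℂ) / ((Real.sqrt N : ℝ) : ℂ)) * Complex.I) / q := by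
    rw [hz', pt_coe]
    push_cast
    ring
  have hD : denom (γ : GL (Fin 2) ℝ) z = -(N : ℂ) * v * z + d := by
    rw [ModularGroup.denom_apply]
    simp [γ]
  have hnum : num (γ : GL (Fin 2) ℝ) z = (q : ℂ) * z - u := by
    show ((((γ : SL(2, ℤ)) 0 0 : ℤ) : ℝ) : ℂ) * (z : ℂ) + ((((γ : SL(2, ℤ)) 0 1 : ℤ) : ℝ) : ℂ) = _
    simp [γ]
    ring
  have hD0 : denom (γ : GL (Fin 2) ℝ) z ≠ 0 := denom_ne_zero _ _
  have hact : ((γ • z : ℍ) : ℂ) = num (γ : GL (Fin 2) ℝ) z / denom (γ : GL (Fin 2) ℝ) z := by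
    rw [ModularGroup.sl_moeb]
    exact coe_smul_of_det_pos (by simp) z
  have hDt : ((Real.sqrt N : ℝ) : ℂ) * (z' : ℂ) / Complex.I =
      (t : ℂ) * denom (γ : GL (Fin 2) ℝ) z := by
    rw [hD, hzc, hzc', div_eq_iff Complex.I_ne_zero]
    rw [← hss] at hdc ⊢
    field_simp
    have hI : Complex.I ^ 2 = -1 := Complex.I_sq
    linear_combination (-(t : ℂ) * Complex.I) * hdc + (((Real.sqrt N : ℝ) : ℂ) * v) * hI
  have hprod : ((γ • z : ℍ) : ℂ) * ((N : ℂ) * (z' : ℂ)) = -1 := by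
    rw [hact, div_mul_eq_mul_div, div_eq_iff hD0]
    have h3 : (z' : ℂ) = Complex.I * ((t : ℂ) * denom (γ : GL (Fin 2) ℝ) z) /
        ((Real.sqrt N : ℝ) : ℂ) := by
      rw [← hDt]
      field_simp
    rw [h3, hnum]
    have h4 : (q : ℂ) * z - u = (1 / (((Real.sqrt N : ℝ) : ℂ) * (t : ℂ))) * Complex.I := by
      rw [hzc]
      field_simp
      ring
    rw [h4, ← hss]
    field_simp
    rw [Complex.I_sq]
  have e2 := hf z' (γ • z) hprod
  rw [e2, hDt, mul_zpow] at e1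
  have h5 : denom (γ : GL (Fin 2) ℝ) z ^ k ≠ 0 := zpow_ne_zero _ hD0
  apply mul_left_cancel₀ h5
  rw [← e1]
  ring

/-- the theta relation of a twist by a real primitive character `χ` of conductor prime to `N`:
the sign is `ε χ(-N)` -/
theorem theta_sign (N : ℕ) [NeZero N] (k : ℤ)
    (f : CuspForm (Gamma0 N : Subgroup (GL (Fin 2) ℝ)) k) (ε : ℂ) (hf : Fricke N k f ε)
    (q : ℕ) [NeZero q] (χ : DirichletCharacter ℂ q) (hχ : χ.IsPrimitive) (hχ2 : χ ^ 2 = 1)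
    (hco : Nat.Coprime q N) (t : ℝ) (ht : 0 < t) :
    ∑' n : ℕ, (qExpansion 1 f).coeff n * χ (n : ZMod q) *
      (Real.exp (-(2 * Real.pi * n / (Real.sqrt N * q)) / t) : ℂ) =
    (ε * (χ (-1) * χ (N : ZMod q))) * (t : ℂ) ^ k *
      ∑' n : ℕ, (qExpansion 1 f).coeff n * χ (n : ZMod q) *
      (Real.exp (-(2 * Real.pi * n / (Real.sqrt N * q)) * t) : ℂ) := by
  have hq : (0 : ℝ) < q := Nat.cast_pos.2 (Nat.pos_of_ne_zero (NeZero.ne q))
  have hN : (0 : ℝ) < N := Nat.cast_pos.2 (Nat.pos_of_ne_zero (NeZero.ne N))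
  have hsN : 0 < Real.sqrt N := Real.sqrt_pos.2 hN
  have hinv : χ⁻¹ = χ := by
    rw [inv_eq_iff_mul_eq_one, ← sq]
    exact hχ2
  set g := gaussSum χ (stdAddChar (N := q)) with hg
  have hg0 : g ≠ 0 := gauss_ne_zero χ hχ
  let n0 : (ZMod q)ˣ := ZMod.unitOfCoprime N hco.symm
  have hn0 : χ ((-n0 : (ZMod q)ˣ) : ZMod q) = χ (-1) * χ (N : ZMod q) := by
    rw [← map_mul]
    congr 1
    simp [n0]
  have h1 : 0 < (1 / (Real.sqrt N * t)) / q := by positivity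
  have h2 : 0 < (t / Real.sqrt N) / q := by positivity
  have s1 := hasSum_twist f χ hχ (1 / (Real.sqrt N * t)) h1
  have s2 := hasSum_twist f χ hχ (t / Real.sqrt N) h2
  rw [← hg] at s1 s2
  have key : (∑ u : (ZMod q)ˣ, χ (u : ZMod q) *
        f (pt ((((u : ZMod q).val : ℤ) : ℝ) / q) ((1 / (Real.sqrt N * t)) / q) h1)) =
      (ε : ℂ) * (t : ℂ) ^ k * χ ((-n0 : (ZMod q)ˣ) : ZMod q) *
      (∑ u : (ZMod q)ˣ, χ (u : ZMod q) *
        f (pt ((((u : ZMod q).val : ℤ) : ℝ) / q) ((t / Real.sqrt N) / q) h2)) := by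
    rw [← Equiv.sum_comp ((Equiv.mulLeft (-n0)).trans (Equiv.inv (ZMod q)ˣ))
      (fun u : (ZMod q)ˣ => χ (u : ZMod q) *
        f (pt ((((u : ZMod q).val : ℤ) : ℝ) / q) ((t / Real.sqrt N) / q) h2)), Finset.mul_sum]
    apply Finset.sum_congr rfl
    intro u _
    simp only [Equiv.trans_apply, Equiv.coe_mulLeft, Equiv.inv_apply]
    set v : (ZMod q)ˣ := (-n0 * u)⁻¹ with hv
    have hdvd : (q : ℤ) ∣ (N * ((u : ZMod q).val : ℤ) * ((v : ZMod q).val : ℤ) + 1) := by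
      rw [← ZMod.intCast_zmod_eq_zero_iff_dvd]
      push_cast
      rw [ZMod.natCast_zmod_val, ZMod.natCast_zmod_val]
      have h3 : (N : ZMod q) = (n0 : ZMod q) := by simp [n0]
      rw [h3, ← Units.val_mul, ← Units.val_mul]
      have h4 : n0 * u * v = -1 := by
        rw [hv, mul_inv_rev]
        rw [show (-n0 : (ZMod q)ˣ)⁻¹ = -(n0⁻¹) from inv_neg ..]
        rw [mul_neg, mul_neg]
        group
      rw [h4]
      simp
    obtain ⟨d, hd⟩ := hdvd
    rw [f_flip f ε hf ((u : ZMod q).val : ℤ) ((v : ZMod q).val : ℤ) d (by linarith) t ht h1 h2]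
    have h5 : χ (u : ZMod q) = χ ((-n0 : (ZMod q)ˣ) : ZMod q) * χ (v : ZMod q) := by
      rw [← map_mul, ← Units.val_mul]
      conv_lhs => rw [← hinv]
      rw [MulChar.inv_apply_eq_inv']
      have h6 : -n0 * v = u⁻¹ := by
        rw [hv, mul_inv_rev]
        rw [mul_comm u⁻¹, mul_inv_cancel_left]
      rw [h6]
      apply inv_eq_of_mul_eq_one_left
      rw [← map_mul, ← Units.val_mul, inv_mul_cancel, Units.val_one, map_one]
    rw [h5]
    ring
  rw [key] at s1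
  set S2 := (∑ u : (ZMod q)ˣ, χ (u : ZMod q) *
        f (pt ((((u : ZMod q).val : ℤ) : ℝ) / q) ((t / Real.sqrt N) / q) h2)) with hS2
  have r1 : HasSum (fun n : ℕ => (qExpansion 1 f).coeff n * χ (n : ZMod q) *
      (Real.exp (-(2 * Real.pi * n / (Real.sqrt N * q)) / t) : ℂ))
      (g⁻¹ * ((ε : ℂ) * (t : ℂ) ^ k * χ ((-n0 : (ZMod q)ˣ) : ZMod q) * S2)) := by
    have := s1.mul_left g⁻¹
    refine HasSum.congr_fun' this (fun n => ?_)
    rw [inv_mul_cancel_left₀ hg0, hinv, mul_comm (χ (n : ZMod q))]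
    congr 4
    field_simp
  have r2 : HasSum (fun n : ℕ => (qExpansion 1 f).coeff n * χ (n : ZMod q) *
      (Real.exp (-(2 * Real.pi * n / (Real.sqrt N * q)) * t) : ℂ)) (g⁻¹ * S2) := by
    have := s2.mul_left g⁻¹
    refine HasSum.congr_fun' this (fun n => ?_)
    rw [inv_mul_cancel_left₀ hg0, hinv, mul_comm (χ (n : ZMod q))]
    congr 4
    field_simp
  rw [r1.tsum_eq, r2.tsum_eq, ← hn0]
  ring

/-- Hecke's bound -/
lemma coeff_bound {N : ℕ} [NeZero N] {k : ℤ}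
    (f : CuspForm (Gamma0 N : Subgroup (GL (Fin 2) ℝ)) k) (hk : 1 ≤ k) :
    ∃ C : ℝ, ∀ n : ℕ, 1 ≤ n → ‖(qExpansion 1 f).coeff n‖ ≤ C * (n : ℝ) ^ ((k : ℝ) / 2) := by
  have h1 : (Gamma0 N : Subgroup (GL (Fin 2) ℝ)).strictWidthInfty = 1 :=
    Subgroup.strictWidthInfty_eq_one_of_T_mem (by
      rw [Gamma0_mem]; simp [ModularGroup.T])
  have h2 := CuspFormClass.qExpansion_isBigO (Γ := (Gamma0 N : Subgroup (GL (Fin 2) ℝ))) f
  rw [h1] at h2
  obtain ⟨C, hC⟩ := h2.bound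
  obtain ⟨n0, hn0⟩ := Filter.eventually_atTop.mp hC
  obtain ⟨B, hB⟩ : ∃ B : ℝ, 0 ≤ B ∧ ∀ n < n0, ‖(qExpansion 1 f).coeff n‖ ≤ B := by
    refine ⟨∑ n ∈ Finset.range n0, ‖(qExpansion 1 f).coeff n‖,
      Finset.sum_nonneg fun _ _ => norm_nonneg _, fun n hn => ?_⟩
    exact Finset.single_le_sum (f := fun n => ‖(qExpansion 1 f).coeff n‖)
      (fun _ _ => norm_nonneg _) (Finset.mem_range.mpr hn)
  refine ⟨max C B, fun n hn => ?_⟩
  have hn1 : (1 : ℝ) ≤ n := by exact_mod_cast hn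
  have hk0 : (0 : ℝ) ≤ (k : ℝ) / 2 := by
    have : (1 : ℝ) ≤ k := by exact_mod_cast hk
    linarith
  have h3 : 1 ≤ (n : ℝ) ^ ((k : ℝ) / 2) := Real.one_le_rpow hn1 hk0
  rcases lt_or_ge n n0 with h | h
  · refine (hB.2 n h).trans ?_
    calc B ≤ max C B := le_max_right _ _
      _ = max C B * 1 := (mul_one _).symm
      _ ≤ _ := mul_le_mul_of_nonneg_left h3 (le_max_of_le_right hB.1)
  · refine (hn0 n h).trans ?_
    rw [Real.norm_of_nonneg (by positivity)]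
    exact mul_le_mul_of_nonneg_right (le_max_left _ _) (by positivity)

/-- `F` is the `L`-function `L(f ⊗ ψ, s)`, normalised so that the functional equation relates `s`
and `1 - s`: an entire function which in some right half-plane is
`∑ a_n ψ(n) n^(-(s + (k-1)/2))`. -/
def IsTwL {N : ℕ} {k : ℤ} (f : CuspForm (Gamma0 N : Subgroup (GL (Fin 2) ℝ)) k) {q : ℕ}
    (ψ : DirichletCharacter ℂ q) (F : ℂ → ℂ) : Prop :=
  Differentiable ℂ F ∧ ∃ σ : ℝ, ∀ s : ℂ, σ < s.re →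
    HasSum (fun n : ℕ => (qExpansion 1 f).coeff n * ψ (n : ZMod q) *
      (n : ℂ) ^ (-(s + ((k : ℂ) - 1) / 2))) (F s)

theorem IsTwL.unique {N : ℕ} {k : ℤ} {f : CuspForm (Gamma0 N : Subgroup (GL (Fin 2) ℝ)) k} {q : ℕ}
    {ψ : DirichletCharacter ℂ q} {F G : ℂ → ℂ} (hF : IsTwL f ψ F) (hG : IsTwL f ψ G) : F = G := by
  obtain ⟨dF, σ, h1⟩ := hF
  obtain ⟨dG, σ', h2⟩ := hG
  have e : ∀ s : ℂ, max σ σ' < s.re → F s = G s := fun s hs =>
    (h1 s (lt_of_le_of_lt (le_max_left _ _) hs)).unique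
      (h2 s (lt_of_le_of_lt (le_max_right _ _) hs))
  have aF : AnalyticOnNhd ℂ F Set.univ := fun z _ => dF.analyticAt z
  have aG : AnalyticOnNhd ℂ G Set.univ := fun z _ => dG.analyticAt z
  refine aF.eq_of_eventuallyEq aG (z₀ := ((max σ σ' + 1 : ℝ) : ℂ)) ?_
  have hev : ∀ᶠ z in 𝓝 (((max σ σ' + 1 : ℝ) : ℂ)), max σ σ' < z.re := by
    refine (Complex.continuous_re.isOpen_preimage _ isOpen_Ioi).mem_nhds ?_
    show max σ σ' < (((max σ σ' + 1 : ℝ) : ℂ)).re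
    simp
  filter_upwards [hev] with z hz
  exact e z hz

/-- existence and sign -/
theorem exists_twist (N : ℕ) [NeZero N] (k : ℤ) (hk : 1 ≤ k)
    (f : CuspForm (Gamma0 N : Subgroup (GL (Fin 2) ℝ)) k) (ε : ℂ) (hε : ε ≠ 0)
    (hf : Fricke N k f ε)
    (q : ℕ) [NeZero q] (χ : DirichletCharacter ℂ q) (hχ : χ.IsPrimitive) (hχ2 : χ ^ 2 = 1)
    (hco : Nat.Coprime q N) :
    ∃ F : ℂ → ℂ, IsTwL f χ F ∧ (ε * (χ (-1) * χ (N : ZMod q)) = -1 → F (1 / 2) = 0) := by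
  have hq : (0 : ℝ) < q := Nat.cast_pos.2 (Nat.pos_of_ne_zero (NeZero.ne q))
  have hN : (0 : ℝ) < N := Nat.cast_pos.2 (Nat.pos_of_ne_zero (NeZero.ne N))
  have hsN : 0 < Real.sqrt N := Real.sqrt_pos.2 hN
  obtain ⟨C, hC⟩ := coeff_bound f hk
  have hk0 : (0 : ℝ) ≤ (k : ℝ) / 2 := by
    have : (1 : ℝ) ≤ k := by exact_mod_cast hk
    linarith
  have hu1 : IsUnit (-1 : ZMod q) := isUnit_one.neg
  have huN : IsUnit (N : ZMod q) := (ZMod.isUnit_iff_coprime N q).2 hco.symm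
  have hw : ε * (χ (-1) * χ (N : ZMod q)) ≠ 0 := by
    refine mul_ne_zero hε (mul_ne_zero ?_ ?_)
    · exact (hu1.map χ).ne_zero
    · exact (huN.map χ).ne_zero
  obtain ⟨F, hF1, -, hF3, hF4⟩ := mellin_lin k hk (Real.sqrt N * q) (by positivity)
    (fun n => (qExpansion 1 f).coeff n * χ (n : ZMod q)) ((k : ℝ) / 2) C
    (by
      have h1 : (1 : ℝ) ∈ (Gamma0 N : Subgroup (GL (Fin 2) ℝ)).strictPeriods := by simp
      have h2 : (qExpansion 1 f).coeff 0 = 0 :=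
        CuspFormClass.qExpansion_coeff_zero (Γ := (Gamma0 N : Subgroup (GL (Fin 2) ℝ)))
          (k := k) f one_pos h1
      show (qExpansion 1 f).coeff 0 * _ = 0
      rw [h2, zero_mul]) hk0
    (fun n hn => by
      rw [norm_mul]
      calc ‖(qExpansion 1 f).coeff n‖ * ‖χ (n : ZMod q)‖ ≤ ‖(qExpansion 1 f).coeff n‖ * 1 :=
            mul_le_mul_of_nonneg_left (χ.norm_le_one _) (norm_nonneg _)
        _ ≤ _ := by rw [mul_one]; exact hC n hn)
    (ε * (χ (-1) * χ (N : ZMod q))) hw (fun t ht => theta_sign N k f ε hf q χ hχ hχ2 hco t ht)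
  exact ⟨F, ⟨hF1, (k : ℝ) / 2 + 2, fun s hs => hF4 s hs⟩, hF3⟩

end Pool.Agent.N818.RN
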